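import Mathlib

set_option autoImplicit false

namespace Pool.Agent.Results.MP_f264ea_lc.Axiomatizable

open FirstOrder FirstOrder.Language

/-- Formulas of the infinitary logic with countable conjunctions and single-variable quantifiers,
over a signature of function symbols. -/
inductive Fm (L : FirstOrder.Language.{0, 0}) : Type
  | eq : L.Term ℕ → L.Term ℕ → Fm L
  | not : Fm L → Fm L
  | conj : (ℕ → Fm L) → Fm L
  | all : ℕ → Fm L → Fm L

/-- Free variables. -/
def FV {L : FirstOrder.Language.{0, 0}} : Fm L → Set ℕ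
  | .eq s t => (s.varFinset : Set ℕ) ∪ (t.varFinset : Set ℕ)
  | .not φ => FV φ
  | .conj f => ⋃ n, FV (f n)
  | .all n φ => FV φ \ {n}

/-- Satisfaction under a valuation. -/
def Sat {L : FirstOrder.Language.{0, 0}} (M : Type) [L.Structure M] : Fm L → (ℕ → M) → Prop
  | .eq s t, v => s.realize v = t.realize v
  | .not φ, v => ¬ Sat M φ v
  | .conj f, v => ∀ n, Sat M (f n) v
  | .all n φ, v => ∀ x : M, Sat M φ (Function.update v n x)

/-- Function symbols of groups. -/
inductive GF : ℕ → Type
  | one : GF 0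
  | inv : GF 1
  | mul : GF 2

/-- The signature of groups. -/
def GrpL : FirstOrder.Language.{0, 0} := ⟨GF, fun _ => Empty⟩

/-- Function symbols of rings without identity. -/
inductive RF : ℕ → Type
  | zero : RF 0
  | neg : RF 1
  | add : RF 2
  | mul : RF 2

/-- The signature of rings without identity. -/
def RngL : FirstOrder.Language.{0, 0} := ⟨RF, fun _ => Empty⟩

/-- The structure is a residually finite group. -/
def IsRFGroup (M : Type) [GrpL.Structure M] : Prop :=
  ∃ _ : Group M, Structure.funMap (L := GrpL) GF.one ![] = (1 : M) ∧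
    (∀ x : M, Structure.funMap (L := GrpL) GF.inv ![x] = x⁻¹) ∧
    (∀ x y : M, Structure.funMap (L := GrpL) GF.mul ![x, y] = x * y) ∧
    ∀ g : M, g ≠ 1 → ∃ N : Subgroup M, N.Normal ∧ N.FiniteIndex ∧ g ∉ N

/-- The structure is a residually finite ring. -/
def IsRFRing (M : Type) [RngL.Structure M] : Prop :=
  ∃ _ : NonUnitalRing M, Structure.funMap (L := RngL) RF.zero ![] = (0 : M) ∧
    (∀ x : M, Structure.funMap (L := RngL) RF.neg ![x] = -x) ∧
    (∀ x y : M, Structure.funMap (L := RngL) RF.add ![x, y] = x + y) ∧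
    (∀ x y : M, Structure.funMap (L := RngL) RF.mul ![x, y] = x * y) ∧
    ∀ a : M, a ≠ 0 → ∃ I : TwoSidedIdeal M, Finite I.ringCon.Quotient ∧ a ∉ I

section gen
variable {L : FirstOrder.Language.{0, 0}}

/-- conjunction over a countable index type -/
noncomputable def bigAnd {ι : Type} [Countable ι] (f : ι → Fm L) : Fm L :=
  .conj fun n => ((exists_surjective_nat (Option ι)).choose n).elim
    (.all 0 (.eq (.var 0) (.var 0))) f

/-- disjunction over a countable index type -/
noncomputable def bigOr {ι : Type} [Countable ι] (f : ι → Fm L) : Fm L :=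
  .not (bigAnd fun i => .not (f i))

/-- quantification over the variables `1, ..., n` -/
def allN : ℕ → Fm L → Fm L
  | 0, φ => φ
  | n + 1, φ => .all (n + 1) (allN n φ)

theorem sat_and (M : Type) [L.Structure M] {ι : Type} [Countable ι] (f : ι → Fm L) (v : ℕ → M) :
    Sat M (bigAnd f) v ↔ ∀ i, Sat M (f i) v := by
  have h := (exists_surjective_nat (Option ι)).choose_spec
  simp only [bigAnd, Sat]
  constructor
  · intro H i
    obtain ⟨n, hn⟩ := h (some i)
    have := H n
    rwa [hn] at this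
  · intro H n
    cases (exists_surjective_nat (Option ι)).choose n with
    | none => intro x; rfl
    | some i => exact H i

theorem sat_or (M : Type) [L.Structure M] {ι : Type} [Countable ι] (f : ι → Fm L) (v : ℕ → M) :
    Sat M (bigOr f) v ↔ ∃ i, Sat M (f i) v := by
  simp [bigOr, Sat, sat_and]

theorem fv_and {ι : Type} [Countable ι] (f : ι → Fm L) (S : Set ℕ) (h : ∀ i, FV (f i) ⊆ S) :
    FV (bigAnd f) ⊆ S := by
  simp only [bigAnd, FV, Set.iUnion_subset_iff]
  intro n
  cases (exists_surjective_nat (Option ι)).choose n with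
  | none => simp [FV, Term.varFinset]
  | some i => exact h i

theorem fv_or {ι : Type} [Countable ι] (f : ι → Fm L) (S : Set ℕ) (h : ∀ i, FV (f i) ⊆ S) :
    FV (bigOr f) ⊆ S := fv_and _ S h

theorem fv_allN (n : ℕ) (φ : Fm L) : FV (allN n φ) = FV φ \ Set.Icc 1 n := by
  induction n with
  | zero => simp [allN]
  | succ n ih =>
    rw [allN, FV, ih]
    ext i; simp only [Set.mem_diff, Set.mem_Icc, Set.mem_singleton_iff]
    constructor
    · rintro ⟨⟨h1, h2⟩, h3⟩; exact ⟨h1, by omega⟩
    · rintro ⟨h1, h2⟩; exact ⟨⟨h1, by omega⟩, by omega⟩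

theorem sat_allN (M : Type) [L.Structure M] (n : ℕ) (φ : Fm L) (v : ℕ → M) :
    Sat M (allN n φ) v ↔ ∀ w : ℕ → M, (∀ i, i = 0 ∨ n < i → w i = v i) → Sat M φ w := by
  induction n generalizing v with
  | zero =>
    refine ⟨fun h w hw => ?_, fun h => h v fun _ _ => rfl⟩
    rwa [show w = v from funext fun i => hw i (by omega)]
  | succ n ih =>
    simp only [allN, Sat, ih]
    constructor
    · intro h w hw
      refine h (w (n + 1)) w fun i hi => ?_
      by_cases h' : i = n + 1
      · rw [h', Function.update_self]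
      · rw [Function.update_of_ne h']; exact hw i (by omega)
    · intro h x w hw
      refine h w fun i hi => ?_
      rw [hw i (by omega), Function.update_of_ne (by omega)]

/-- binary conjunction -/
def and2 (φ ψ : Fm L) : Fm L := .conj fun n => if n = 0 then φ else ψ

theorem sat_and2 (M : Type) [L.Structure M] (φ ψ : Fm L) (v : ℕ → M) :
    Sat M (and2 φ ψ) v ↔ Sat M φ v ∧ Sat M ψ v :=
  ⟨fun h => ⟨h 0, h 1⟩, fun h n => by
    show Sat M (if n = 0 then φ else ψ) v
    split_ifs
    exacts [h.1, h.2]⟩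

theorem fv_and2 (φ ψ : Fm L) (S : Set ℕ) (h1 : FV φ ⊆ S) (h2 : FV ψ ⊆ S) : FV (and2 φ ψ) ⊆ S := by
  refine Set.iUnion_subset fun n => ?_
  show FV (if n = 0 then φ else ψ) ⊆ S
  split_ifs
  exacts [h1, h2]

theorem generic {O : Type} [Finite O] (op : O → L.Term ℕ → L.Term ℕ → L.Term ℕ) (e : L.Term ℕ)
    (h1 : ∀ o i j, ((op o (.var i) (.var j)).varFinset : Set ℕ) ⊆ {i, j}) (h2 : e.varFinset = ∅) :
    ∃ ψ : Fm L, FV ψ = ∅ ∧ ∀ (M : Type) [L.Structure M] (opM : O → M → M → M) (eM : M),
      (∀ (v : ℕ → M) o i j, (op o (.var i) (.var j)).realize v = opM o (v i) (v j)) →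
      (∀ v : ℕ → M, e.realize v = eM) →
      ((∀ v, Sat M ψ v) ↔ ∀ a, a ≠ eM → ∃ (k : ℕ) (c : M → Fin k), c a ≠ c eM ∧
        ∀ o x y x' y', c x = c x' → c y = c y' → c (opM o x y) = c (opM o x' y')) := by
  let θ : (k n : ℕ) → (Fin (n + 1) → Fin k) → Fm L := fun k n c =>
    and2 (bigAnd fun i : {i : Fin (n + 1) // c i = c 0} => .not (.eq (.var i.1) e))
      (and2 (bigAnd fun p : {p : Fin (n + 1) × Fin (n + 1) // c p.1 ≠ c p.2} =>
        .not (.eq (.var p.1.1) (.var p.1.2)))
      (bigAnd fun p : {p : O × (Fin 6 → Fin (n + 1)) //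
          c (p.2 0) = c (p.2 1) ∧ c (p.2 2) = c (p.2 3) ∧ c (p.2 4) ≠ c (p.2 5)} =>
        .not (and2 (.eq (op p.1.1 (.var (p.1.2 0)) (.var (p.1.2 2))) (.var (p.1.2 4)))
          (.eq (op p.1.1 (.var (p.1.2 1)) (.var (p.1.2 3))) (.var (p.1.2 5))))))
  refine ⟨.all 0 (bigOr fun k : Option ℕ => k.elim (.eq (.var 0) e) fun k =>
    bigAnd fun n : ℕ => allN n (bigOr fun c : Fin (n + 1) → Fin k => θ k n c)), ?_, ?_⟩
  · rw [FV, Set.diff_eq_empty]
    refine fv_or _ _ ?_
    rintro (_ | k)
    · simp [FV, Term.varFinset, h2]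
    refine fv_and _ _ fun n => ?_
    rw [fv_allN, Set.diff_subset_iff]
    have hb : ∀ i : Fin (n + 1), (i : ℕ) ∈ Set.Icc 1 n ∪ {0} := fun i => by
      have := i.2
      simp only [Set.mem_union, Set.mem_Icc, Set.mem_singleton_iff]; omega
    have hb' : ∀ i : Fin (n + 1), ((Term.var (i : ℕ) : L.Term ℕ).varFinset : Set ℕ)
        ⊆ Set.Icc 1 n ∪ {0} := fun i => by
      rw [Term.varFinset, Finset.coe_singleton]; exact Set.singleton_subset_iff.mpr (hb i)
    refine fv_or _ _ fun c => fv_and2 _ _ _ (fv_and _ _ fun i => ?_) (fv_and2 _ _ _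
      (fv_and _ _ fun i => ?_) (fv_and _ _ fun p => fv_and2 _ _ _ ?_ ?_))
    · exact Set.union_subset (hb' _) (by simp [h2])
    · exact Set.union_subset (hb' _) (hb' _)
    all_goals
      exact Set.union_subset ((h1 _ _ _).trans
        (Set.insert_subset (hb _) (Set.singleton_subset_iff.mpr (hb _)))) (hb' _)
  intro M _ opM eM ho he
  have hθ : ∀ k n c (w : ℕ → M), Sat M (θ k n c) w ↔ (∀ i : Fin (n + 1), w i = eM → c i ≠ c 0) ∧
      (∀ i j : Fin (n + 1), w i = w j → c i = c j) ∧
      ∀ (o : O) (p : Fin 6 → Fin (n + 1)), opM o (w (p 0)) (w (p 2)) = w (p 4) →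
        opM o (w (p 1)) (w (p 3)) = w (p 5) → c (p 0) = c (p 1) → c (p 2) = c (p 3) →
        c (p 4) = c (p 5) := by
    intro k n c w
    simp only [θ, sat_and, sat_and2, Sat, Term.realize_var, he, ho, Subtype.forall, Prod.forall]
    refine and_congr ⟨fun h i hi hc => h i hc hi, fun h i hc hi => h i hi hc⟩ (and_congr
      ⟨fun h i j hij => by_contra fun hc => h i j hc hij, fun h i j hc hij => hc (h i j hij)⟩ ?_)
    exact ⟨fun h o p a1 a2 a3 a4 => by_contra fun hc => h o p ⟨a3, a4, hc⟩ ⟨a1, a2⟩,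
      fun h o p hc ha => hc.2.2 (h o p ha.1 ha.2 hc.1 hc.2.1)⟩
  simp only [Sat, sat_or, Option.exists, Option.elim, Term.realize_var, Function.update_self, he,
    sat_and, sat_allN, hθ]
  constructor
  · intro H a ha
    obtain ⟨k, hk⟩ := (H (fun _ => a) a).resolve_left ha
    have key : ∀ s : Finset M, ∃ g : M → Fin k, g a ≠ g eM ∧
        ∀ o, ∀ x ∈ s, ∀ y ∈ s, ∀ x' ∈ s, ∀ y' ∈ s, opM o x y ∈ s → opM o x' y' ∈ s →
          g x = g x' → g y = g y' → g (opM o x y) = g (opM o x' y') := by
      classical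
      intro s
      let l := (insert eM s).toList
      obtain ⟨c, c1, c2, c3⟩ := hk l.length (fun i => (a :: l).getD i a) (by
        rintro i (rfl | hi)
        · simp
        · rw [List.getD_eq_default _ _ (by simp only [List.length_cons]; omega)]
          simp)
      have hs : ∀ x, x ∈ insert eM s → ∃ i : Fin (l.length + 1), (a :: l).getD i a = x := by
        intro x hx
        obtain ⟨i, hi, rfl⟩ := List.getElem_of_mem (Finset.mem_toList.mpr hx)
        exact ⟨⟨i + 1, Nat.succ_lt_succ hi⟩, by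
          rw [List.getD_cons_succ, List.getD_eq_getElem _ _ hi]⟩
      let g : M → Fin k := fun x =>
        if h : ∃ i : Fin (l.length + 1), (a :: l).getD i a = x then c h.choose else c 0
      have hg : ∀ i : Fin (l.length + 1), g ((a :: l).getD i a) = c i := fun i => by
        have h : ∃ j : Fin (l.length + 1), (a :: l).getD j a = (a :: l).getD i a := ⟨i, rfl⟩
        simp only [g, dif_pos h]
        exact c2 _ _ h.choose_spec
      refine ⟨g, ?_, fun o x hx y hy x' hx' y' hy' hz hz' e1 e2 => ?_⟩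
      · obtain ⟨i, hi⟩ := hs eM (Finset.mem_insert_self _ _)
        have := hg 0
        rw [← hi, hg, show g a = c 0 from this]
        exact (c1 i hi).symm
      · obtain ⟨i0, rfl⟩ := hs x (Finset.mem_insert_of_mem hx)
        obtain ⟨i1, rfl⟩ := hs x' (Finset.mem_insert_of_mem hx')
        obtain ⟨i2, rfl⟩ := hs y (Finset.mem_insert_of_mem hy)
        obtain ⟨i3, rfl⟩ := hs y' (Finset.mem_insert_of_mem hy')
        obtain ⟨i4, h4⟩ := hs _ (Finset.mem_insert_of_mem hz)
        obtain ⟨i5, h5⟩ := hs _ (Finset.mem_insert_of_mem hz')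
        rw [← h4, ← h5, hg, hg]
        rw [hg, hg] at e1 e2
        exact c3 o ![i0, i1, i2, i3, i4, i5] h4.symm h5.symm e1 e2
    choose g g1 g2 using key
    obtain ⟨χ, hχ⟩ := Finset.rado_selection (β := fun _ : M => Fin k) g
    classical
    refine ⟨k, χ, ?_, fun o x y x' y' e1 e2 => ?_⟩
    · obtain ⟨t, -, ht⟩ := hχ {a, eM}
      rw [ht a (by simp), ht eM (by simp)]
      exact g1 t
    · obtain ⟨t, hs, ht⟩ := hχ {x, y, x', y', opM o x y, opM o x' y'}
      rw [ht _ (by simp), ht _ (by simp)] at e1 e2 ⊢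
      exact g2 t o x (hs (by simp)) y (hs (by simp)) x' (hs (by simp)) y' (hs (by simp))
        (hs (by simp)) (hs (by simp)) e1 e2
  · intro H v a
    by_cases ha : a = eM
    · exact Or.inl ha
    obtain ⟨k, c, c1, c2⟩ := H a ha
    refine Or.inr ⟨k, fun n w hw => ⟨fun i => c (w i), fun i hi => ?_, fun i j h => congrArg c h,
      fun o p a1 a2 a3 a4 => ?_⟩⟩
    · have : w 0 = a := by rw [hw 0 (Or.inl rfl), Function.update_self]
      simp only [hi, Fin.val_zero, this]
      exact c1.symm
    · beta_reduce; rw [← a1, ← a2]; exact c2 o _ _ _ _ a3 a4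

/-- universal closure in three variables of an equation -/
def ax (s t : L.Term ℕ) : Fm L := allN 3 (.eq s t)

theorem fv_ax (s t : L.Term ℕ) (h : ∀ i ∈ s.varFinset ∪ t.varFinset, 1 ≤ i ∧ i ≤ 3) :
    FV (ax s t) ⊆ ∅ := by
  rw [ax, fv_allN, Set.diff_subset_iff, Set.union_empty, FV]
  intro i hi
  exact h i (by simpa using hi)

theorem sat_ax (M : Type) [L.Structure M] (s t : L.Term ℕ) (v : ℕ → M) :
    Sat M (ax s t) v ↔ ∀ z y x : M,
      s.realize (Function.update (Function.update (Function.update v 3 z) 2 y) 1 x)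
        = t.realize (Function.update (Function.update (Function.update v 3 z) 2 y) 1 x) := Iff.rfl

end gen

/-- group terms -/
def g1 : GrpL.Term ℕ := .func GF.one ![]
/-- group terms -/
def gi (s : GrpL.Term ℕ) : GrpL.Term ℕ := .func GF.inv ![s]
/-- group terms -/
def gm (s t : GrpL.Term ℕ) : GrpL.Term ℕ := .func GF.mul ![s, t]

theorem r0 {L : FirstOrder.Language.{0, 0}} {M : Type} [L.Structure M] (f : L.Functions 0)
    (v : ℕ → M) : (Term.func f ![]).realize v = Structure.funMap f ![] := by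
  rw [Term.realize_func]; congr 1; ext i; exact i.elim0

theorem r1 {L : FirstOrder.Language.{0, 0}} {M : Type} [L.Structure M] (f : L.Functions 1)
    (s : L.Term ℕ) (v : ℕ → M) :
    (Term.func f ![s]).realize v = Structure.funMap f ![s.realize v] := by
  rw [Term.realize_func]; congr 1; ext i; fin_cases i; rfl

theorem r2 {L : FirstOrder.Language.{0, 0}} {M : Type} [L.Structure M] (f : L.Functions 2)
    (s t : L.Term ℕ) (v : ℕ → M) :
    (Term.func f ![s, t]).realize v = Structure.funMap f ![s.realize v, t.realize v] := by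
  rw [Term.realize_func]; congr 1; ext i; fin_cases i <;> rfl

theorem groups : ∃ φ : Fm GrpL, FV φ = ∅ ∧
    ∀ (M : Type) [GrpL.Structure M], (∀ v, Sat M φ v) ↔ IsRFGroup M := by
  obtain ⟨ψ, h1, h2⟩ := generic (L := GrpL) (O := Bool)
    (fun o s t => if o then gm s t else gi s) g1
    (by rintro (_ | _) i j <;> simp [gm, gi, Term.varFinset, Finset.biUnion_subset,
      Fin.forall_fin_succ]) (by simp [g1, Term.varFinset])
  refine ⟨and2 ψ (and2
    (ax (gm (gm (.var 1) (.var 2)) (.var 3)) (gm (.var 1) (gm (.var 2) (.var 3))))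
    (and2 (ax (gm g1 (.var 1)) (.var 1)) (ax (gm (gi (.var 1)) (.var 1)) g1))), ?_, fun M _ => ?_⟩
  · exact Set.subset_empty_iff.mp (fv_and2 _ _ _ h1.subset (fv_and2 _ _ _ (fv_ax _ _ (by decide))
      (fv_and2 _ _ _ (fv_ax _ _ (by decide)) (fv_ax _ _ (by decide)))))
  have h3 := h2 M (fun o x y => if o then Structure.funMap (L := GrpL) GF.mul ![x, y]
    else Structure.funMap (L := GrpL) GF.inv ![x]) (Structure.funMap (L := GrpL) GF.one ![])
    (by rintro v (_ | _) i j; exacts [r1 _ _ _, r2 _ _ _ _]) (fun v => r0 _ _)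
  simp only [sat_and2, sat_ax, gm, gi, g1, r0, r1, r2, Term.realize_var, forall_and, h3,
    Bool.forall_bool, Function.update_self, ne_eq, OfNat.ofNat_ne_one, not_false_eq_true,
    Function.update_of_ne, Nat.reduceEqDiff, if_true, Bool.false_eq_true, if_false]
  constructor
  · rintro ⟨a1, a2, a3, a4⟩
    let e : M := Structure.funMap (L := GrpL) GF.one ![]
    letI : Mul M := ⟨fun x y => Structure.funMap (L := GrpL) GF.mul ![x, y]⟩
    letI : One M := ⟨e⟩
    letI : Inv M := ⟨fun x => Structure.funMap (L := GrpL) GF.inv ![x]⟩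
    letI G : Group M := Group.ofLeftAxioms (fun x y z => a2 (fun _ => e) z y x)
      (fun x => a3 (fun _ => e) e e x) (fun x => a4 (fun _ => e) e e x)
    refine ⟨G, rfl, fun _ => rfl, fun _ _ => rfl, fun g hg => ?_⟩
    obtain ⟨k, c, c1, c2, c3⟩ := a1 g hg
    let r : Con M := { r := fun x y => c x = c y
                       iseqv := ⟨fun _ => rfl, Eq.symm, Eq.trans⟩
                       mul' := fun h h' => c3 _ _ _ _ h h' }
    have : Finite r.Quotient := Finite.of_injective
      (fun q : r.Quotient => Con.liftOn q c fun _ _ h => h) (by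
        intro p q
        induction p using Con.induction_on
        induction q using Con.induction_on
        exact fun h => r.eq.mpr h)
    exact ⟨r.mk'.ker, inferInstance, inferInstance, fun h => c1 (r.eq.mp h)⟩
  · rintro ⟨G, b1, b2, b3, b4⟩
    simp only [b1, b2, b3]
    refine ⟨fun a ha => ?_, fun _ _ _ _ => mul_assoc _ _ _, fun _ _ _ _ => one_mul _,
      fun _ _ _ _ => inv_mul_cancel _⟩
    obtain ⟨N, hN, hf, ha'⟩ := b4 a ha
    obtain ⟨k, ⟨j⟩⟩ := Finite.exists_equiv_fin (M ⧸ N)
    refine ⟨k, fun x => j (x : M ⧸ N), fun h => ha' ?_, fun x _ x' _ h _ => ?_,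
      fun x y x' y' h h' => ?_⟩
    · exact (QuotientGroup.eq_one_iff a).mp (j.injective h)
    · beta_reduce; rw [QuotientGroup.mk_inv, QuotientGroup.mk_inv, j.injective h]
    · beta_reduce; rw [QuotientGroup.mk_mul, QuotientGroup.mk_mul, j.injective h, j.injective h']

/-- ring terms -/
def q0 : RngL.Term ℕ := .func RF.zero ![]
/-- ring terms -/
def qn (s : RngL.Term ℕ) : RngL.Term ℕ := .func RF.neg ![s]
/-- ring terms -/
def qa (s t : RngL.Term ℕ) : RngL.Term ℕ := .func RF.add ![s, t]
/-- ring terms -/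
def qm (s t : RngL.Term ℕ) : RngL.Term ℕ := .func RF.mul ![s, t]

theorem rings : ∃ φ : Fm RngL, FV φ = ∅ ∧
    ∀ (M : Type) [RngL.Structure M], (∀ v, Sat M φ v) ↔ IsRFRing M := by
  obtain ⟨ψ, h1, h2⟩ := generic (L := RngL) (O := Bool)
    (fun o s t => if o then qm s t else qa s t) q0
    (by rintro (_ | _) i j <;> simp [qm, qa, Term.varFinset, Finset.biUnion_subset,
      Fin.forall_fin_succ]) (by simp [q0, Term.varFinset])
  refine ⟨and2 ψ (and2
    (ax (qa (qa (.var 1) (.var 2)) (.var 3)) (qa (.var 1) (qa (.var 2) (.var 3))))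
    (and2 (ax (qa q0 (.var 1)) (.var 1)) (and2 (ax (qa (qn (.var 1)) (.var 1)) q0)
    (and2 (ax (qa (.var 1) (.var 2)) (qa (.var 2) (.var 1)))
    (and2 (ax (qm (qm (.var 1) (.var 2)) (.var 3)) (qm (.var 1) (qm (.var 2) (.var 3))))
    (and2 (ax (qm (.var 1) (qa (.var 2) (.var 3))) (qa (qm (.var 1) (.var 2)) (qm (.var 1) (.var 3))))
    (ax (qm (qa (.var 1) (.var 2)) (.var 3)) (qa (qm (.var 1) (.var 3)) (qm (.var 2) (.var 3)))))))))),
    ?_, fun M _ => ?_⟩
  · refine Set.subset_empty_iff.mp (fv_and2 _ _ _ h1.subset ?_)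
    repeat refine fv_and2 _ _ _ (fv_ax _ _ (by decide)) ?_
    exact fv_ax _ _ (by decide)
  have h3 := h2 M (fun o x y => if o then Structure.funMap (L := RngL) RF.mul ![x, y]
    else Structure.funMap (L := RngL) RF.add ![x, y]) (Structure.funMap (L := RngL) RF.zero ![])
    (by rintro v (_ | _) i j; exacts [r2 _ _ _ _, r2 _ _ _ _]) (fun v => r0 _ _)
  simp only [sat_and2, sat_ax, qm, qa, qn, q0, r0, r1, r2, Term.realize_var, forall_and, h3,
    Bool.forall_bool, Function.update_self, ne_eq, OfNat.ofNat_ne_one, not_false_eq_true,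
    Function.update_of_ne, Nat.reduceEqDiff, if_true, Bool.false_eq_true, if_false]
  constructor
  · rintro ⟨a1, a2, a3, a4, a5, a6, a7, a8⟩
    let e : M := Structure.funMap (L := RngL) RF.zero ![]
    letI : Add M := ⟨fun x y => Structure.funMap (L := RngL) RF.add ![x, y]⟩
    letI : Mul M := ⟨fun x y => Structure.funMap (L := RngL) RF.mul ![x, y]⟩
    letI : Zero M := ⟨e⟩
    letI : Neg M := ⟨fun x => Structure.funMap (L := RngL) RF.neg ![x]⟩
    letI G : AddGroup M := AddGroup.ofLeftAxioms (fun x y z => a2 (fun _ => e) z y x)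
      (fun x => a3 (fun _ => e) e e x) (fun x => a4 (fun _ => e) e e x)
    have l1 : ∀ x y z : M, x * (y + z) = x * y + x * z := fun x y z => a7 (fun _ => e) z y x
    have l2 : ∀ x y z : M, (x + y) * z = x * z + y * z := fun x y z => a8 (fun _ => e) z y x
    letI R : NonUnitalRing M :=
      { G with
        add_comm := fun x y => a5 (fun _ => e) e y x
        mul_assoc := fun x y z => a6 (fun _ => e) z y x
        left_distrib := l1
        right_distrib := l2
        zero_mul := fun x => by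
          have := l2 0 0 x
          rw [add_zero] at this
          exact left_eq_add.mp this
        mul_zero := fun x => by
          have := l1 x 0 0
          rw [add_zero] at this
          exact left_eq_add.mp this }
    refine ⟨R, rfl, fun _ => rfl, fun _ _ => rfl, fun _ _ => rfl, fun g hg => ?_⟩
    obtain ⟨k, c, c1, c2, c3⟩ := a1 g hg
    let r : RingCon M := { r := fun x y => c x = c y
                           iseqv := ⟨fun _ => rfl, Eq.symm, Eq.trans⟩
                           mul' := fun h h' => c3 _ _ _ _ h h'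
                           add' := fun h h' => c2 _ _ _ _ h h' }
    refine ⟨⟨r⟩, Finite.of_injective
      (fun q : r.Quotient => Quotient.liftOn' q c fun _ _ h => h) ?_, c1⟩
    intro p q
    induction p using Quotient.inductionOn'
    induction q using Quotient.inductionOn'
    exact fun h => Quotient.sound' h
  · rintro ⟨R, b1, b2, b3, b4, b5⟩
    simp only [b1, b2, b3, b4]
    refine ⟨fun a ha => ?_, fun _ _ _ _ => add_assoc _ _ _, fun _ _ _ _ => zero_add _,
      fun _ _ _ _ => neg_add_cancel _, fun _ _ _ _ => add_comm _ _, fun _ _ _ _ => mul_assoc _ _ _,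
      fun _ _ _ _ => mul_add _ _ _, fun _ _ _ _ => add_mul _ _ _⟩
    obtain ⟨I, hf, ha'⟩ := b5 a ha
    obtain ⟨k, ⟨j⟩⟩ := Finite.exists_equiv_fin I.ringCon.Quotient
    refine ⟨k, fun x => j (x : I.ringCon.Quotient), fun h => ha' ?_, fun x y x' y' h h' => ?_,
      fun x y x' y' h h' => ?_⟩
    · exact I.ringCon.eq.mp (j.injective h)
    · beta_reduce; rw [RingCon.coe_add, RingCon.coe_add, j.injective h, j.injective h']
    · beta_reduce; rw [RingCon.coe_mul, RingCon.coe_mul, j.injective h, j.injective h']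

theorem result :
    (∃ φ : Fm RngL, FV φ = ∅ ∧
      ∀ (M : Type) [RngL.Structure M], (∀ v, Sat M φ v) ↔ IsRFRing M) ∧
    (∃ φ : Fm GrpL, FV φ = ∅ ∧
      ∀ (M : Type) [GrpL.Structure M], (∀ v, Sat M φ v) ↔ IsRFGroup M) :=
  ⟨rings, groups⟩

end Pool.Agent.Results.MP_f264ea_lc.Axiomatizable
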